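import Pool.Agent.W759.TR.Defs

/-!
Invariant percolation on the 4-regular tree: good vertices of density at least `3 / 4` contain
long non-backtracking paths with positive probability.
-/

set_option autoImplicit false

namespace Pool.Agent.H478.TR.T7

open MeasureTheory Set Filter
open scoped ENNReal Topology
open Pool.Agent.W759.TR

/-- The indices of the generators. -/
abbrev Gn : Type := Fin 2 × Bool

/-- The inverse generator. -/
def nv (s : Gn) : Gn := (s.1, !s.2)

theorem nv_nv (s : Gn) : nv (nv s) = s := by simp [nv]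

theorem gen_nv (s : Gn) : gen s * gen (nv s) = 1 := gen_mul_gen s

theorem gen_nv' (s : Gn) : gen (nv s) * gen s = 1 := by
  have := gen_nv (nv s)
  rwa [nv_nv] at this

theorem toWord_gen (s : Gn) : (gen s).toWord = [s] := by
  unfold gen
  rw [FreeGroup.toWord_mk]
  simp

theorem gen_inj {s t : Gn} (h : gen s = gen t) : s = t := by
  have := congrArg FreeGroup.toWord h
  rw [toWord_gen, toWord_gen] at this
  simpa using this

theorem gen_ne_one (s : Gn) : gen s ≠ 1 := by
  intro h
  have := congrArg FreeGroup.toWord h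
  rw [toWord_gen] at this
  simp at this

variable {Ω : Type} [MeasurableSpace Ω]

/-- Stripping leaves. -/
def A (τ : FreeGroup (Fin 2) → Ω → Ω) (Good : Set Ω) : ℕ → Set Ω
  | 0 => Good
  | i + 1 => A τ Good i ∩ ⋃ s : Gn, ⋃ t : Gn, ⋃ _ : s ≠ t,
      (τ (gen s) ⁻¹' A τ Good i ∩ τ (gen t) ⁻¹' A τ Good i)

variable {τ : FreeGroup (Fin 2) → Ω → Ω} {Good : Set Ω}

omit [MeasurableSpace Ω] in
theorem A_succ_subset (i : ℕ) : A τ Good (i + 1) ⊆ A τ Good i := inter_subset_left

omit [MeasurableSpace Ω] in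
theorem A_subset_good (i : ℕ) : A τ Good i ⊆ Good := by
  induction i with
  | zero => exact subset_rfl
  | succ i ih => exact (A_succ_subset i).trans ih

theorem A_meas (hm : ∀ g, Measurable (τ g)) (hG : MeasurableSet Good) (i : ℕ) :
    MeasurableSet (A τ Good i) := by
  induction i with
  | zero => exact hG
  | succ i ih =>
    refine ih.inter (MeasurableSet.iUnion fun s => MeasurableSet.iUnion fun t =>
      MeasurableSet.iUnion fun _ => (hm _ ih).inter (hm _ ih))

/-- A path with given steps. -/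
def pth (s : ℕ → Gn) : ℕ → FreeGroup (Fin 2)
  | 0 => 1
  | j + 1 => pth s j * gen (s j)

theorem pth_shift (s : ℕ → Gn) (j : ℕ) : pth s (j + 1) = gen (s 0) * pth (fun i => s (i + 1)) j := by
  induction j with
  | zero => simp [pth]
  | succ j ih => rw [pth, ih, mul_assoc]; rfl

theorem pth_congr {s t : ℕ → Gn} {N : ℕ} (h : ∀ j, j < N → s j = t j) :
    ∀ j, j ≤ N → pth s j = pth t j := by
  intro j
  induction j with
  | zero => intro _; rfl
  | succ j ih => intro hj; rw [pth, pth, ih (by omega), h j (by omega)]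

theorem exists_path (hτ : ∀ g v y, τ g (τ v y) = τ (v * g) y) (h1 : ∀ y, τ 1 y = y) :
    ∀ (N : ℕ) (y : Ω), y ∈ A τ Good N → ∀ t : Gn, ∃ s : ℕ → Gn, (0 < N → s 0 ≠ t) ∧
      (∀ j, j + 1 < N → s (j + 1) ≠ nv (s j)) ∧ ∀ j ≤ N, τ (pth s j) y ∈ Good := by
  intro N
  induction N with
  | zero =>
    intro y hy t
    refine ⟨fun _ => t, fun h => absurd h (lt_irrefl _), fun j hj => absurd hj (by omega), ?_⟩
    intro j hj
    obtain rfl : j = 0 := by omega
    have hy' : y ∈ Good := hy
    simpa [pth, h1] using hy'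
  | succ N ih =>
    intro y hy t
    have hy0 : y ∈ Good := A_subset_good _ hy
    obtain ⟨-, hy2⟩ := hy
    simp only [mem_iUnion, mem_inter_iff, mem_preimage] at hy2
    obtain ⟨s1, s2, hne, hs1, hs2⟩ := hy2
    obtain ⟨s0, hs0t, hs0⟩ : ∃ s0, s0 ≠ t ∧ τ (gen s0) y ∈ A τ Good N := by
      by_cases h : s1 = t
      · exact ⟨s2, fun h' => hne (h.trans h'.symm), hs2⟩
      · exact ⟨s1, h, hs1⟩
    obtain ⟨s', hs'0, hs'1, hs'2⟩ := ih _ hs0 (nv s0)
    let s : ℕ → Gn := fun j => Nat.casesOn j s0 s'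
    have e0 : s 0 = s0 := rfl
    have e1 : ∀ j, s (j + 1) = s' j := fun _ => rfl
    refine ⟨s, fun _ => hs0t, ?_, ?_⟩
    · intro j hj
      rcases j with _ | j
      · rw [e1, e0]
        exact hs'0 (by omega)
      · rw [e1, e1]
        exact hs'1 j (by omega)
    · intro j hj
      rcases j with _ | j
      · simpa [pth, h1] using hy0
      · rw [pth_shift, ← hτ]
        exact hs'2 j (by omega)

section Meas

variable {P : Measure Ω} [IsProbabilityMeasure P]

omit [IsProbabilityMeasure P] in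
theorem real_preimage (hm : ∀ g, MeasurePreserving (τ g) P P) (g : FreeGroup (Fin 2))
    {S : Set Ω} (hS : MeasurableSet S) : P.real (τ g ⁻¹' S) = P.real S := by
  simp only [Measure.real, (hm g).measure_preimage hS.nullMeasurableSet]

/-- the sum over the generators of the edge probabilities -/
noncomputable def e (P : Measure Ω) (τ : FreeGroup (Fin 2) → Ω → Ω) (Good : Set Ω) (i : ℕ) : ℝ :=
  ∑ s : Gn, P.real (A τ Good i ∩ τ (gen s) ⁻¹' A τ Good i)

theorem sum_D (hm : ∀ g, MeasurePreserving (τ g) P P) (hG : MeasurableSet Good) (i : ℕ) :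
    ∑ s : Gn, P.real ((A τ Good i \ A τ Good (i + 1)) ∩ τ (gen s) ⁻¹' A τ Good i) ≤
      P.real (A τ Good i \ A τ Good (i + 1)) := by
  have hA := A_meas (fun g => (hm g).measurable) hG
  rw [← measureReal_biUnion_finset]
  · refine measureReal_mono ?_
    intro y hy
    simp only [mem_iUnion] at hy
    obtain ⟨s, -, hy⟩ := hy
    exact hy.1
  · intro s _ t _ hst
    rw [Function.onFun, Set.disjoint_left]
    rintro y ⟨hy1, hy2⟩ ⟨-, hy3⟩
    refine hy1.2 ⟨hy1.1, ?_⟩
    simp only [mem_iUnion, mem_inter_iff]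
    exact ⟨s, t, hst, hy2, hy3⟩
  · intro s _
    exact ((hA i).diff (hA (i + 1))).inter ((hm _).measurable (hA i))

theorem flip (hm : ∀ g, MeasurePreserving (τ g) P P) (hτ : ∀ g v y, τ g (τ v y) = τ (v * g) y)
    (h1 : ∀ y, τ 1 y = y) {S T : Set Ω} (hS : MeasurableSet S) (hT : MeasurableSet T) (s : Gn) :
    P.real (S ∩ τ (gen s) ⁻¹' T) = P.real (T ∩ τ (gen (nv s)) ⁻¹' S) := by
  have h2 : τ (gen (nv s)) ⁻¹' (S ∩ τ (gen s) ⁻¹' T) = T ∩ τ (gen (nv s)) ⁻¹' S := by
    ext y
    simp only [mem_preimage, mem_inter_iff, hτ, gen_nv', h1]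
    tauto
  rw [← h2, real_preimage hm _ (hS.inter ((hm _).measurable hT))]

theorem step (hm : ∀ g, MeasurePreserving (τ g) P P) (hτ : ∀ g v y, τ g (τ v y) = τ (v * g) y)
    (h1 : ∀ y, τ 1 y = y) (hG : MeasurableSet Good) (i : ℕ) :
    e P τ Good i - 2 * P.real (A τ Good i) ≤
      e P τ Good (i + 1) - 2 * P.real (A τ Good (i + 1)) := by
  have hA := A_meas (fun g => (hm g).measurable) hG
  have hD := (hA i).diff (hA (i + 1))
  have hs : ∀ s : Gn, P.real (A τ Good i ∩ τ (gen s) ⁻¹' A τ Good i) ≤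
      P.real (A τ Good (i + 1) ∩ τ (gen s) ⁻¹' A τ Good (i + 1)) +
      (P.real ((A τ Good i \ A τ Good (i + 1)) ∩ τ (gen s) ⁻¹' A τ Good i) +
      P.real ((A τ Good i \ A τ Good (i + 1)) ∩ τ (gen (nv s)) ⁻¹' A τ Good i)) := by
    intro s
    rw [← flip hm hτ h1 (hA i) hD s]
    refine (measureReal_mono ?_).trans ((measureReal_union_le _ _).trans
      (add_le_add_right (measureReal_union_le _ _) _))
    intro y hy
    simp only [mem_inter_iff, mem_preimage, mem_union, Set.mem_sdiff] at hy ⊢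
    tauto
  have hsum := Finset.sum_le_sum fun s (_ : s ∈ (Finset.univ : Finset Gn)) => hs s
  rw [Finset.sum_add_distrib, Finset.sum_add_distrib] at hsum
  have h3 := sum_D hm hG (τ := τ) (P := P) i
  have h4 : ∑ s : Gn, P.real ((A τ Good i \ A τ Good (i + 1)) ∩ τ (gen (nv s)) ⁻¹' A τ Good i) =
      ∑ s : Gn, P.real ((A τ Good i \ A τ Good (i + 1)) ∩ τ (gen s) ⁻¹' A τ Good i) := by
    refine Fintype.sum_equiv (Equiv.ofBijective nv ?_) _ _ fun s => rfl
    exact (Function.Involutive.bijective nv_nv)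
  have h5 : P.real (A τ Good i \ A τ Good (i + 1)) =
      P.real (A τ Good i) - P.real (A τ Good (i + 1)) :=
    measureReal_sdiff (A_succ_subset i) (hA (i + 1))
  unfold e
  linarith

theorem pos (hm : ∀ g, MeasurePreserving (τ g) P P) (hτ : ∀ g v y, τ g (τ v y) = τ (v * g) y)
    (h1 : ∀ y, τ 1 y = y) (hG : MeasurableSet Good) (hP : P Goodᶜ ≤ 1 / 4) (N : ℕ) :
    0 < P (A τ Good N) := by
  have hA := A_meas (fun g => (hm g).measurable) hG
  have hp0 : 3 / 4 ≤ P.real (A τ Good 0) := by
    have h2 : P.real Goodᶜ ≤ 1 / 4 := by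
      have h3 := ENNReal.toReal_mono (by simp) hP
      simpa [Measure.real] using h3
    have h3 : P.real Goodᶜ = 1 - P.real Good := by
      rw [measureReal_compl hG]
      simp
    change 3 / 4 ≤ P.real Good
    linarith
  have he0 : 4 * (2 * P.real (A τ Good 0) - 1) ≤ e P τ Good 0 := by
    have h2 : ∀ s : Gn, 2 * P.real (A τ Good 0) - 1 ≤
        P.real (A τ Good 0 ∩ τ (gen s) ⁻¹' A τ Good 0) := by
      intro s
      have h3 := measureReal_union_add_inter (μ := P) (s := A τ Good 0)
        (t := τ (gen s) ⁻¹' A τ Good 0) ((hm _).measurable (hA 0))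
      rw [real_preimage hm _ (hA 0)] at h3
      have h4 : P.real (A τ Good 0 ∪ τ (gen s) ⁻¹' A τ Good 0) ≤ 1 := measureReal_le_one
      linarith
    have h3 := Finset.sum_le_sum fun s (_ : s ∈ (Finset.univ : Finset Gn)) => h2 s
    rw [Finset.sum_const] at h3
    have h4 : (Finset.univ : Finset Gn).card = 4 := by decide
    rw [h4] at h3
    unfold e
    simpa using h3
  have hstep : e P τ Good 0 - 2 * P.real (A τ Good 0) ≤
      e P τ Good N - 2 * P.real (A τ Good N) := by
    induction N with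
    | zero => exact le_rfl
    | succ N ih => exact ih.trans (step hm hτ h1 hG N)
  have heN : e P τ Good N ≤ 4 * P.real (A τ Good N) := by
    have h3 := Finset.sum_le_sum fun s (_ : s ∈ (Finset.univ : Finset Gn)) =>
      (measureReal_mono (μ := P) inter_subset_left :
        P.real (A τ Good N ∩ τ (gen s) ⁻¹' A τ Good N) ≤ P.real (A τ Good N))
    rw [Finset.sum_const] at h3
    have h4 : (Finset.univ : Finset Gn).card = 4 := by decide
    rw [h4] at h3
    unfold e
    simpa using h3
  have h5 : 0 < P.real (A τ Good N) := by linarith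
  by_contra h6
  have h7 : P (A τ Good N) = 0 := by
    simpa using h6
  simp [Measure.real, h7] at h5

end Meas

/-- extending finitely many steps -/
def ext (N : ℕ) (s : Fin N → Gn) : ℕ → Gn := fun j => if h : j < N then s ⟨j, h⟩ else (0, true)

/-- Percolation of the good vertices. -/
theorem t7 : T7 := by
  intro Ω _ P _ τ hm hτ h1 Good hG hP N
  have hpos := pos hm hτ h1 hG hP N
  -- the admissible steps
  let I : Type := {s : Fin N → Gn // ∀ j, j + 1 < N → ext N s (j + 1) ≠ nv (ext N s j)}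
  have hsub : A τ Good N ⊆ ⋃ s : I, {y | ∀ j ≤ N, τ (pth (ext N s.1) j) y ∈ Good} := by
    intro y hy
    obtain ⟨s, -, hs1, hs2⟩ := exists_path hτ h1 N y hy (0, true)
    have hext : ∀ j, j < N → s j = ext N (fun i => s i.1) j := by
      intro j hj
      simp [ext, hj]
    rw [mem_iUnion]
    refine ⟨⟨fun i => s i.1, ?_⟩, ?_⟩
    · intro j hj
      rw [← hext _ hj, ← hext _ (by omega)]
      exact hs1 j hj
    · intro j hj
      rw [← pth_congr hext j hj]
      exact hs2 j hj
  obtain ⟨s, hs⟩ : ∃ s : I, 0 < P {y | ∀ j ≤ N, τ (pth (ext N s.1) j) y ∈ Good} := by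
    by_contra hcon
    push Not at hcon
    have h2 : P (⋃ s : I, {y | ∀ j ≤ N, τ (pth (ext N s.1) j) y ∈ Good}) = 0 := by
      refine measure_iUnion_null fun s => ?_
      exact le_antisymm (hcon s) bot_le
    have h3 := measure_mono_null hsub h2
    exact absurd h3 hpos.ne'
  refine ⟨pth (ext N s.1), ?_, ?_, hs⟩
  · intro j _
    refine ⟨?_, ext N s.1 j, rfl⟩
    intro h
    rw [pth] at h
    exact gen_ne_one _ (left_eq_mul.1 h)
  · intro j hj h
    rw [pth, pth, mul_assoc] at h
    have h2 : gen (ext N s.1 j) * gen (ext N s.1 (j + 1)) = 1 := mul_eq_left.1 h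
    have h3 : gen (ext N s.1 (j + 1)) = gen (nv (ext N s.1 j)) := by
      have h4 := gen_nv (ext N s.1 j)
      exact mul_left_cancel (h2.trans h4.symm)
    exact s.2 j (by omega) (gen_inj h3)

end Pool.Agent.H478.TR.T7
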